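import Mathlib

set_option autoImplicit false

namespace Pool.Agent.Results.MP_628ecd_an.StrictlySingular

open Complex Metric Filter Topology
open scoped Complex.UnitDisc ENNReal

/-- A function on the open unit disc is analytic if it is the restriction of a function
that is analytic at every point of the disc. -/
def IsAnalytic (f : 𝔻 → ℂ) : Prop :=
  ∃ F : ℂ → ℂ, AnalyticOnNhd ℂ F (ball (0 : ℂ) 1) ∧ ∀ z : 𝔻, f z = F z

/-- A Banach space of analytic functions on the open unit disc: a complex Banach space `E`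
whose elements are (through the injective linear map `toFun`) analytic functions on the disc,
with continuous point evaluations. -/
structure AnalyticBanachSpace where
  /-- the underlying Banach space -/
  E : Type
  [normedAddCommGroup : NormedAddCommGroup E]
  [normedSpace : NormedSpace ℂ E]
  [complete : CompleteSpace E]
  /-- an element of `E`, regarded as a function on the disc -/
  toFun : E →ₗ[ℂ] (𝔻 → ℂ)
  toFun_injective : Function.Injective toFun
  analytic : ∀ f : E, IsAnalytic (toFun f)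
  continuous_eval : ∀ z : 𝔻, Continuous fun f : E => toFun f z

attribute [instance] AnalyticBanachSpace.normedAddCommGroup AnalyticBanachSpace.normedSpace
  AnalyticBanachSpace.complete

/-- A bounded operator `T` on `E` is strictly singular if there is no closed
infinite-dimensional subspace of `E` on which `T` is bounded below. -/
def IsStrictlySingular {E : Type*} [NormedAddCommGroup E] [NormedSpace ℂ E]
    (T : E →L[ℂ] E) : Prop :=
  ¬ ∃ M : Submodule ℂ E, IsClosed (M : Set E) ∧ ¬ FiniteDimensional ℂ M ∧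
    ∃ c : ℝ, 0 < c ∧ ∀ x ∈ M, c * ‖x‖ ≤ ‖T x‖

/-! ### Power series with controlled coefficients -/

/-- The weights. -/
noncomputable def v : ℕ → ℝ
  | 0 => 1
  | (n + 1) => if Even (n + 1) then ((n : ℝ) + 1) * v ((n + 1) / 2) else 1
decreasing_by omega

theorem v_zero : v 0 = 1 := by rw [v]

theorem v_odd {n : ℕ} (hn : ¬ Even n) : v n = 1 := by
  obtain ⟨m, rfl⟩ : ∃ m, n = m + 1 := ⟨n - 1, by
    rcases Nat.eq_zero_or_pos n with h | h
    · subst h; simp at hn
    · omega⟩
  rw [v, if_neg hn]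

theorem v_even {n : ℕ} (hn : Even n) (h0 : n ≠ 0) : v n = n * v (n / 2) := by
  obtain ⟨m, rfl⟩ : ∃ m, n = m + 1 := ⟨n - 1, by omega⟩
  rw [v, if_pos hn]; push_cast; ring

theorem one_le_v (n : ℕ) : 1 ≤ v n := by
  induction n using Nat.strong_induction_on with
  | _ n ih =>
    by_cases hn : Even n
    · by_cases h0 : n = 0
      · subst h0; rw [v_zero]
      · rw [v_even hn h0]
        have h1 : (1 : ℝ) ≤ n := by exact_mod_cast Nat.one_le_iff_ne_zero.mpr h0
        have h2 := ih (n / 2) (by omega)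
        nlinarith
    · rw [v_odd hn]

theorem v_pos (n : ℕ) : 0 < v n := lt_of_lt_of_le one_pos (one_le_v n)

/-- The ratios. -/
noncomputable def lam (j : ℕ) : ℝ := if j = 0 then 1 else 1 / (j : ℝ)

theorem lam_mul {j : ℕ} (hj : Even j) : v j * lam j = v (j / 2) := by
  unfold lam
  by_cases h0 : j = 0
  · subst h0; simp
  · rw [if_neg h0, v_even hj h0]
    have : (j : ℝ) ≠ 0 := by exact_mod_cast h0
    field_simp

theorem lam_nonneg (j : ℕ) : 0 ≤ lam j := by
  unfold lam; split_ifs
  · norm_num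
  · positivity

theorem lam_le_one (j : ℕ) : lam j ≤ 1 := by
  unfold lam; split_ifs with h
  · norm_num
  · have : (1 : ℝ) ≤ j := by exact_mod_cast Nat.one_le_iff_ne_zero.mpr h
    rw [div_le_one (by linarith)]; exact this

theorem v_growth {r : ℝ} (h0 : 0 < r) (h1 : r < 1) : ∃ C : ℝ, ∀ n, v n * r ^ n ≤ C := by
  -- `n * r^(n/2)` tends to zero
  have hs : Tendsto (fun n : ℕ => (n : ℝ) * (Real.sqrt r) ^ n) atTop (𝓝 0) := by
    apply tendsto_self_mul_const_pow_of_lt_one (Real.sqrt_nonneg r)
    rw [Real.sqrt_lt' one_pos]; simpa using h1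
  have hev := (hs.eventually_le_const (show (0 : ℝ) < 1 by norm_num))
  obtain ⟨N, hN⟩ := eventually_atTop.mp hev
  obtain ⟨C, hC⟩ : ∃ C : ℝ, 1 ≤ C ∧ ∀ n, n < N → v n * r ^ n ≤ C := by
    refine ⟨1 + ∑ n ∈ Finset.range N, v n * r ^ n, ?_, ?_⟩
    · have : 0 ≤ ∑ n ∈ Finset.range N, v n * r ^ n :=
        Finset.sum_nonneg fun n _ => mul_nonneg (v_pos n).le (pow_nonneg h0.le n)
      linarith
    · intro n hn
      have : v n * r ^ n ≤ ∑ n ∈ Finset.range N, v n * r ^ n :=
        Finset.single_le_sum (f := fun n => v n * r ^ n)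
          (fun n _ => mul_nonneg (v_pos n).le (pow_nonneg h0.le n)) (Finset.mem_range.mpr hn)
      linarith
  refine ⟨C, ?_⟩
  intro n
  induction n using Nat.strong_induction_on with
  | _ n ih =>
    rcases Nat.lt_or_ge n N with hlt | hge
    · exact hC.2 n hlt
    · by_cases hn : Even n
      · by_cases hz : n = 0
        · subst hz; rw [v_zero]; simpa using hC.1
        · obtain ⟨m, hm⟩ := hn
          have hm2 : n / 2 = m := by omega
          have hv : v n = n * v m := by rw [v_even ⟨m, hm⟩ hz, hm2]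
          have e : v n * r ^ n = ((n : ℝ) * (Real.sqrt r) ^ n) * (v m * r ^ m) := by
            rw [hv]
            have hr : r ^ n = (Real.sqrt r) ^ n * r ^ m := by
              have : (Real.sqrt r) ^ n = r ^ m := by
                rw [hm, ← two_mul, pow_mul, Real.sq_sqrt h0.le]
              rw [this, hm, pow_add]
            rw [hr]; ring
          rw [e]
          have i1 := ih m (by omega)
          have i2 := hN n hge
          have i3 : 0 ≤ v m * r ^ m := mul_nonneg (v_pos m).le (pow_nonneg h0.le m)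
          calc ((n : ℝ) * (Real.sqrt r) ^ n) * (v m * r ^ m) ≤ 1 * (v m * r ^ m) :=
                mul_le_mul_of_nonneg_right i2 i3
            _ ≤ C := by rw [one_mul]; exact i1
      · rw [v_odd hn, one_mul]
        exact le_trans (pow_le_one₀ h0.le h1.le) hC.1

theorem v_summable {r : ℝ} (h0 : 0 ≤ r) (h1 : r < 1) :
    Summable fun n : ℕ => v (n / 2) * r ^ n := by
  obtain ⟨s, hs⟩ : ∃ s : ℝ, s = (1 + r) / 2 := ⟨_, rfl⟩
  have hs0 : 0 < s := by rw [hs]; linarith
  have hs1 : s < 1 := by rw [hs]; linarith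
  have hrs : r < s := by rw [hs]; linarith
  obtain ⟨C, hC⟩ := v_growth hs0 hs1
  have hq0 : 0 ≤ r / s := by positivity
  have hq1 : r / s < 1 := by rw [div_lt_one hs0]; exact hrs
  refine Summable.of_nonneg_of_le (fun n => mul_nonneg (v_pos _).le (pow_nonneg h0 n)) ?_
    ((summable_geometric_of_lt_one hq0 hq1).mul_left C)
  intro n
  have e : r ^ n = s ^ n * (r / s) ^ n := by
    rw [div_pow, ← mul_div_assoc, mul_div_cancel_left₀ _ (pow_ne_zero n hs0.ne')]
  rw [e, ← mul_assoc]
  apply mul_le_mul_of_nonneg_right _ (pow_nonneg hq0 n)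
  calc v (n / 2) * s ^ n ≤ v (n / 2) * s ^ (n / 2) := by
        apply mul_le_mul_of_nonneg_left _ (v_pos _).le
        exact pow_le_pow_of_le_one hs0.le hs1.le (Nat.div_le_self n 2)
    _ ≤ C := hC _

/-- A coefficient sequence is tame if it is dominated by the weights. -/
def Tame (a : ℕ → ℂ) : Prop := ∃ C : ℝ, 0 ≤ C ∧ ∀ n, ‖a n‖ ≤ C * v (n / 2)

theorem Tame.summable {a : ℕ → ℂ} (ha : Tame a) {r : ℝ} (h0 : 0 ≤ r) (h1 : r < 1) :
    Summable fun n : ℕ => ‖a n‖ * r ^ n := by
  obtain ⟨C, hC0, hC⟩ := ha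
  refine Summable.of_nonneg_of_le (fun n => mul_nonneg (norm_nonneg _) (pow_nonneg h0 n)) ?_
    ((v_summable h0 h1).mul_left C)
  intro n
  rw [← mul_assoc]
  exact mul_le_mul_of_nonneg_right (hC n) (pow_nonneg h0 n)

theorem Tame.summable' {a : ℕ → ℂ} (ha : Tame a) {z : ℂ} (hz : ‖z‖ < 1) :
    Summable fun n : ℕ => a n * z ^ n := by
  apply Summable.of_norm
  simpa [norm_mul, norm_pow] using ha.summable (norm_nonneg z) hz

theorem Tame.analytic {a : ℕ → ℂ} (ha : Tame a) :
    AnalyticOnNhd ℂ (fun z : ℂ => ∑' n, a n * z ^ n) (ball (0 : ℂ) 1) := by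
  apply DifferentiableOn.analyticOnNhd _ isOpen_ball
  intro z hz
  rw [mem_ball_zero_iff] at hz
  obtain ⟨r, hzr, hr1⟩ := exists_between hz
  have hr0 : 0 ≤ r := (norm_nonneg z).trans hzr.le
  have hd : DifferentiableOn ℂ (fun z : ℂ => ∑' n, a n * z ^ n) (ball (0 : ℂ) r) := by
    refine differentiableOn_tsum_of_summable_norm (ha.summable hr0 hr1) ?_ isOpen_ball ?_
    · intro n
      exact ((differentiable_id.pow n).const_mul (a n)).differentiableOn
    · intro n w hw
      rw [mem_ball_zero_iff] at hw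
      rw [norm_mul, norm_pow]
      exact mul_le_mul_of_nonneg_left (pow_le_pow_left₀ (norm_nonneg w) hw.le n) (norm_nonneg _)
  exact (hd.differentiableAt (isOpen_ball.mem_nhds (by simpa using hzr))).differentiableWithinAt

theorem Tame.eq_zero {a : ℕ → ℂ} (ha : Tame a)
    (h : ∀ z : ℂ, ‖z‖ < 1 → ∑' n, a n * z ^ n = 0) : a = 0 := by
  set p := FormalMultilinearSeries.ofScalars ℂ a with hp
  have hrad : ((1 / 2 : NNReal) : ℝ≥0∞) ≤ p.radius := by
    have hsum := ha.summable (r := 1 / 2) (by norm_num) (by norm_num)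
    apply p.le_radius_of_bound (∑' n, ‖a n‖ * (1 / 2 : ℝ) ^ n)
    intro n
    have : ‖p n‖ = ‖a n‖ := by
      rw [hp]; exact FormalMultilinearSeries.ofScalars_norm (E := ℂ) a n
    rw [this]
    exact hsum.le_tsum n (fun m _ => mul_nonneg (norm_nonneg _) (by positivity))
  have hpos : 0 < p.radius := lt_of_lt_of_le (by simp) hrad
  have hfp := p.hasFPowerSeriesOnBall hpos
  have hev : ∀ᶠ z in 𝓝 (0 : ℂ), p.sum z = 0 := by
    filter_upwards [ball_mem_nhds (0 : ℂ) one_pos] with z hz
    rw [mem_ball_zero_iff] at hz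
    have e := FormalMultilinearSeries.ofScalars_sum_eq a z
    unfold FormalMultilinearSeries.ofScalarsSum at e
    rw [hp, e]
    simpa using h z hz
  have hz := hfp.hasFPowerSeriesAt.eq_zero_of_eventually hev
  rw [hp, FormalMultilinearSeries.ofScalars_series_eq_zero] at hz
  exact hz

/-! ### The ambient sequence space -/

/-- The ambient Banach space of sequences. -/
abbrev B : Type := lp (fun _ : ℕ => ℂ) 1 × lp (fun _ : ℕ => ℂ) ⊤

/-- The Taylor coefficients of the function attached to an element of `B`. -/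
noncomputable def coeff (u : B) (n : ℕ) : ℂ :=
  if Even n then (v (n / 2) : ℂ) * u.2 (n / 2) else u.1 (n / 2)

theorem norm_fst_apply_le (u : B) (i : ℕ) : ‖u.1 i‖ ≤ ‖u‖ :=
  (lp.norm_apply_le_norm (by norm_num) u.1 i).trans (norm_fst_le u)

theorem norm_snd_apply_le (u : B) (i : ℕ) : ‖u.2 i‖ ≤ ‖u‖ :=
  (lp.norm_apply_le_norm (by norm_num) u.2 i).trans (norm_snd_le u)

theorem coeff_norm_le (u : B) (n : ℕ) : ‖coeff u n‖ ≤ ‖u‖ * v (n / 2) := by
  unfold coeff
  split_ifs
  · rw [norm_mul, Complex.norm_real, Real.norm_of_nonneg (v_pos _).le, mul_comm]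
    exact mul_le_mul_of_nonneg_right (norm_snd_apply_le u _) (v_pos _).le
  · calc ‖u.1 (n / 2)‖ ≤ ‖u‖ * 1 := by rw [mul_one]; exact norm_fst_apply_le u _
      _ ≤ ‖u‖ * v (n / 2) := mul_le_mul_of_nonneg_left (one_le_v _) (norm_nonneg _)

theorem coeff_tame (u : B) : Tame (coeff u) := ⟨‖u‖, norm_nonneg _, coeff_norm_le u⟩

theorem coeff_add (u w : B) (n : ℕ) : coeff (u + w) n = coeff u n + coeff w n := by
  unfold coeff
  split_ifs
  · simp [mul_add]
  · simp

theorem coeff_smul (c : ℂ) (u : B) (n : ℕ) : coeff (c • u) n = c * coeff u n := by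
  unfold coeff
  split_ifs
  · simp; ring
  · simp

theorem coeff_injective {u w : B} (h : coeff u = coeff w) : u = w := by
  apply Prod.ext
  · apply lp.ext
    funext i
    have := congrFun h (2 * i + 1)
    unfold coeff at this
    rw [if_neg (by simp), if_neg (by simp)] at this
    have e : (2 * i + 1) / 2 = i := by omega
    rw [e] at this
    exact this
  · apply lp.ext
    funext i
    have := congrFun h (2 * i)
    unfold coeff at this
    rw [if_pos (by simp), if_pos (by simp)] at this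
    have e : (2 * i) / 2 = i := by omega
    rw [e] at this
    have hv : (v i : ℂ) ≠ 0 := by exact_mod_cast (v_pos i).ne'
    exact mul_left_cancel₀ hv this

/-- The realization of the elements of `B` as functions on the disc. -/
noncomputable def realize : B →ₗ[ℂ] (𝔻 → ℂ) where
  toFun u z := ∑' n, coeff u n * (z : ℂ) ^ n
  map_add' u w := by
    funext z
    simp only [Pi.add_apply]
    rw [← ((coeff_tame u).summable' z.norm_lt_one).tsum_add
      ((coeff_tame w).summable' z.norm_lt_one)]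
    congr 1
    funext n
    rw [coeff_add]; ring
  map_smul' c u := by
    funext z
    simp only [Pi.smul_apply, RingHom.id_apply, smul_eq_mul]
    rw [← tsum_mul_left]
    congr 1
    funext n
    rw [coeff_smul]; ring

theorem realize_apply (u : B) (z : 𝔻) : realize u z = ∑' n, coeff u n * (z : ℂ) ^ n := rfl

theorem realize_injective : Function.Injective realize := by
  rw [← LinearMap.ker_eq_bot, LinearMap.ker_eq_bot']
  intro u hu
  have h0 : coeff u = 0 := by
    apply (coeff_tame u).eq_zero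
    intro z hz
    have := congrFun hu (UnitDisc.mk z hz)
    rw [realize_apply] at this
    simpa using this
  apply coeff_injective
  rw [h0]
  funext n
  unfold coeff
  split_ifs <;> simp

theorem realize_analytic (u : B) : IsAnalytic (realize u) :=
  ⟨fun z => ∑' n, coeff u n * z ^ n, (coeff_tame u).analytic, fun _ => rfl⟩

theorem realize_continuous (z : 𝔻) : Continuous fun u : B => realize u z := by
  have hs := v_summable (norm_nonneg (z : ℂ)) z.norm_lt_one
  let L : B →ₗ[ℂ] ℂ := (LinearMap.proj z).comp realize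
  have hb : ∀ u, ‖L u‖ ≤ (∑' n, v (n / 2) * ‖(z : ℂ)‖ ^ n) * ‖u‖ := by
    intro u
    change ‖∑' n, coeff u n * (z : ℂ) ^ n‖ ≤ _
    have hn : Summable fun n => ‖coeff u n * (z : ℂ) ^ n‖ := by
      simpa [norm_mul, norm_pow] using (coeff_tame u).summable (norm_nonneg _) z.norm_lt_one
    refine (norm_tsum_le_tsum_norm hn).trans ?_
    rw [← tsum_mul_right]
    refine hn.tsum_le_tsum ?_ (hs.mul_right _)
    intro n
    rw [norm_mul, norm_pow]
    have := coeff_norm_le u n
    calc ‖coeff u n‖ * ‖(z : ℂ)‖ ^ n ≤ (‖u‖ * v (n / 2)) * ‖(z : ℂ)‖ ^ n :=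
          mul_le_mul_of_nonneg_right this (by positivity)
      _ = v (n / 2) * ‖(z : ℂ)‖ ^ n * ‖u‖ := by ring
  exact (L.mkContinuous _ hb).continuous

/-! ### The operator -/

/-- The coordinates of the image. -/
noncomputable def tc (u : B) (j : ℕ) : ℂ :=
  if Even j then (lam j : ℂ) * u.2 (j / 2) else u.1 (j / 2)

theorem tc_norm_le (u : B) (j : ℕ) : ‖tc u j‖ ≤ ‖u‖ := by
  unfold tc
  split_ifs
  · rw [norm_mul, Complex.norm_real, Real.norm_of_nonneg (lam_nonneg _)]
    calc lam j * ‖u.2 (j / 2)‖ ≤ 1 * ‖u‖ :=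
          mul_le_mul (lam_le_one j) (norm_snd_apply_le u _) (norm_nonneg _) zero_le_one
      _ = ‖u‖ := one_mul _
  · exact norm_fst_apply_le u _

theorem tc_mem (u : B) : Memℓp (tc u) ⊤ := by
  apply memℓp_infty
  refine ⟨‖u‖, ?_⟩
  rintro _ ⟨j, rfl⟩
  exact tc_norm_le u j

/-- The operator on `B`. -/
noncomputable def T : B →L[ℂ] B :=
  LinearMap.mkContinuous
    { toFun := fun u => ((0 : lp (fun _ : ℕ => ℂ) 1), (⟨tc u, tc_mem u⟩ : lp (fun _ : ℕ => ℂ) ⊤))
      map_add' := by
        intro u w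
        apply Prod.ext
        · simp
        · apply lp.ext
          funext j
          change tc (u + w) j = tc u j + tc w j
          unfold tc
          split_ifs
          · simp [mul_add]
          · simp
      map_smul' := by
        intro c u
        apply Prod.ext
        · simp
        · apply lp.ext
          funext j
          change tc (c • u) j = c * tc u j
          unfold tc
          split_ifs
          · simp; ring
          · simp }
    1 (by
      intro u
      rw [one_mul]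
      refine max_le ?_ ?_
      · simp
      · exact lp.norm_le_of_forall_le (norm_nonneg u) (tc_norm_le u))

theorem T_fst (u : B) : (T u).1 = 0 := rfl

theorem T_snd (u : B) (j : ℕ) : (T u).2 j = tc u j := rfl

theorem coeff_T (u : B) (n : ℕ) : coeff (T u) n = if Even n then coeff u (n / 2) else 0 := by
  by_cases hn : Even n
  · rw [if_pos hn]
    conv_lhs => unfold coeff
    rw [if_pos hn, T_snd]
    unfold tc coeff
    by_cases h2 : Even (n / 2)
    · rw [if_pos h2, if_pos h2, ← lam_mul h2]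
      push_cast; ring
    · rw [if_neg h2, if_neg h2, v_odd h2]
      simp
  · rw [if_neg hn]
    unfold coeff
    rw [if_neg hn, T_fst]
    simp

/-- The squaring map of the disc. -/
noncomputable def sq (z : 𝔻) : 𝔻 := z * z

theorem realize_T (u : B) (z : 𝔻) : realize (T u) z = realize u (sq z) := by
  rw [realize_apply, realize_apply]
  have hinj : Function.Injective (fun n : ℕ => 2 * n) := fun a b h => by
    simpa using h
  rw [← hinj.tsum_eq]
  · congr 1
    funext n
    rw [coeff_T, if_pos (by simp)]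
    have e : 2 * n / 2 = n := by omega
    rw [e, pow_mul]
    congr 2
    simp [sq, pow_two]
  · intro n hn
    rw [Function.mem_support, coeff_T] at hn
    by_cases he : Even n
    · obtain ⟨m, hm⟩ := he
      exact ⟨m, by change 2 * m = n; omega⟩
    · rw [if_neg he] at hn
      simp at hn

/-- The monomial vectors. -/
noncomputable def b (n : ℕ) : B :=
  if Even n then (0, lp.single ⊤ (n / 2) ((v (n / 2) : ℂ)⁻¹)) else (lp.single 1 (n / 2) 1, 0)

theorem coeff_b (n m : ℕ) : coeff (b n) m = if m = n then 1 else 0 := by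
  unfold coeff b
  by_cases hm : Even m
  · rw [if_pos hm]
    by_cases hn : Even n
    · rw [if_pos hn]
      by_cases hmn : m = n
      · subst hmn
        rw [if_pos rfl]
        have hv : (v (m / 2) : ℂ) ≠ 0 := by exact_mod_cast (v_pos (m / 2)).ne'
        simp [hv]
      · rw [if_neg hmn]
        have : m / 2 ≠ n / 2 := by
          obtain ⟨a, ha⟩ := hm
          obtain ⟨c, hc⟩ := hn
          omega
        simp [Pi.single_eq_of_ne this]
    · rw [if_neg hn]
      have : m ≠ n := by rintro rfl; exact hn hm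
      simp [this]
  · rw [if_neg hm]
    by_cases hn : Even n
    · rw [if_pos hn]
      have : m ≠ n := by rintro rfl; exact hm hn
      simp [this]
    · rw [if_neg hn]
      by_cases hmn : m = n
      · subst hmn
        simp
      · rw [if_neg hmn]
        have : m / 2 ≠ n / 2 := by
          rw [Nat.not_even_iff_odd] at hm hn
          obtain ⟨a, ha⟩ := hm
          obtain ⟨c, hc⟩ := hn
          omega
        simp [Pi.single_eq_of_ne this]

theorem T_b (n : ℕ) : T (b n) = b (2 * n) := by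
  apply coeff_injective
  funext m
  rw [coeff_T, coeff_b, coeff_b]
  by_cases hm : Even m
  · rw [if_pos hm]
    obtain ⟨a, ha⟩ := hm
    by_cases h : m / 2 = n
    · rw [if_pos h, if_pos (by omega)]
    · rw [if_neg h, if_neg (by omega)]
  · rw [if_neg hm, if_neg]
    rintro rfl
    exact hm (by simp)

theorem realize_b (n : ℕ) (z : 𝔻) : realize (b n) z = (z : ℂ) ^ n := by
  rw [realize_apply, tsum_eq_single n]
  · rw [coeff_b]; simp
  · intro m hm
    rw [coeff_b, if_neg hm, zero_mul]

/-! ### Strict singularity -/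

theorem exists_vanishing {M : Submodule ℂ B} (hM : ¬ FiniteDimensional ℂ M) (N : ℕ) :
    ∃ u ∈ M, u ≠ 0 ∧ ∀ i < N, u.1 i = 0 ∧ u.2 i = 0 := by
  by_contra hcon
  push Not at hcon
  apply hM
  let R : M →ₗ[ℂ] (Fin N → ℂ) × (Fin N → ℂ) :=
    { toFun := fun u => (fun i => u.1.1 i, fun i => u.1.2 i)
      map_add' := fun u w => by
        apply Prod.ext <;> funext i <;> simp
      map_smul' := fun c u => by
        apply Prod.ext <;> funext i <;> simp }
  have hR : Function.Injective R := by
    rw [← LinearMap.ker_eq_bot, LinearMap.ker_eq_bot']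
    rintro ⟨u, hu⟩ h
    by_contra hne
    have hne' : u ≠ 0 := fun h0 => hne (Subtype.ext h0)
    obtain ⟨i, hi, hi'⟩ := hcon u hu hne'
    have h1 : u.1 i = 0 := congrFun (congrArg Prod.fst h) ⟨i, hi⟩
    have h2 : u.2 i = 0 := congrFun (congrArg Prod.snd h) ⟨i, hi⟩
    exact hi' h1 h2
  exact Module.Finite.of_injective R hR

/-- The formal inclusion of `ℓ¹` into `ℓ^∞`. -/
noncomputable def J : lp (fun _ : ℕ => ℂ) 1 →ₗ[ℂ] lp (fun _ : ℕ => ℂ) ⊤ :=
  lp.linearMapOfLE ℂ (fun _ : ℕ => ℂ) le_top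

theorem J_apply (x : lp (fun _ : ℕ => ℂ) 1) (i : ℕ) : J x i = x i := rfl

theorem norm_one_eq (x : lp (fun _ : ℕ => ℂ) 1) : ‖x‖ = ∑' i, ‖x i‖ := by
  rw [lp.norm_eq_tsum_rpow (by norm_num)]; simp

theorem summable_one (x : lp (fun _ : ℕ => ℂ) 1) : Summable fun i => ‖x i‖ := by
  have := (lp.memℓp x).summable (by norm_num)
  simpa using this

theorem J_le (x : lp (fun _ : ℕ => ℂ) 1) : ‖J x‖ ≤ ‖x‖ :=
  lp.norm_le_of_forall_le (norm_nonneg x) fun i => by
    rw [J_apply]; exact lp.norm_apply_le_norm (by norm_num) x i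

theorem le_J (x : lp (fun _ : ℕ => ℂ) 1) (i : ℕ) : ‖x i‖ ≤ ‖J x‖ := by
  rw [← J_apply]; exact lp.norm_apply_le_norm (by norm_num) (J x) i

theorem not_bounded_below {M : Submodule ℂ B} (hM : ¬ FiniteDimensional ℂ M) {c : ℝ} (hc : 0 < c)
    (h : ∀ u ∈ M, c * ‖u‖ ≤ ‖T u‖) : False := by
  obtain ⟨N0, hN0⟩ : ∃ N0 : ℕ, 0 < N0 ∧ 1 / (N0 : ℝ) ≤ c / 2 := by
    obtain ⟨n, hn⟩ := exists_nat_gt (2 / c)
    have h2c : 0 < 2 / c := by positivity
    have hn0 : (0 : ℝ) < n := h2c.trans hn
    refine ⟨n, by exact_mod_cast hn0, ?_⟩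
    rw [div_le_div_iff₀ hn0 two_pos]
    rw [div_lt_iff₀ hc] at hn
    linarith
  -- on vectors vanishing on the first `N0` coordinates
  let V : ℕ → B → Prop := fun N u => u ∈ M ∧ ∀ i < N, u.1 i = 0 ∧ u.2 i = 0
  have key : ∀ u, V N0 u → c * ‖u‖ ≤ ‖J u.1‖ := by
    rintro u ⟨huM, hu⟩
    by_contra hcon
    push Not at hcon
    have hu0 : 0 < ‖u‖ := by
      by_contra h0
      have : ‖u‖ = 0 := le_antisymm (not_lt.mp h0) (norm_nonneg u)
      rw [this, mul_zero] at hcon
      exact absurd hcon (not_lt.mpr (norm_nonneg _))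
    have hT : ‖T u‖ ≤ max ‖J u.1‖ (c / 2 * ‖u‖) := by
      have hnn : 0 ≤ max ‖J u.1‖ (c / 2 * ‖u‖) := le_max_of_le_left (norm_nonneg _)
      refine max_le ?_ ?_
      · rw [T_fst, norm_zero]; exact hnn
      · refine lp.norm_le_of_forall_le hnn ?_
        intro j
        rw [T_snd]
        unfold tc
        split_ifs with hj
        · apply le_max_of_le_right
          rw [norm_mul, Complex.norm_real, Real.norm_of_nonneg (lam_nonneg _)]
          rcases Nat.lt_or_ge (j / 2) N0 with hlt | hge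
          · rw [(hu _ hlt).2, norm_zero, mul_zero]; positivity
          · have hj0 : j ≠ 0 := by omega
            have hjN : (N0 : ℝ) ≤ j := by exact_mod_cast (by omega : N0 ≤ j)
            have hN0' : (0 : ℝ) < N0 := by exact_mod_cast hN0.1
            have hl : lam j ≤ c / 2 := by
              unfold lam
              rw [if_neg hj0]
              exact (one_div_le_one_div_of_le hN0' hjN).trans hN0.2
            exact mul_le_mul hl (norm_snd_apply_le u _) (norm_nonneg _) (by positivity)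
        · exact le_max_of_le_left (le_J _ _)
    have h1 := (h u huM).trans hT
    rcases le_max_iff.mp h1 with h2 | h2
    · exact absurd h2 (not_le.mpr hcon)
    · nlinarith
  -- the optimal constant
  let R : Set ℝ := {r | ∃ u, V N0 u ∧ ‖J u.1‖ = 1 ∧ r = ‖u.1‖}
  have hRbdd : BddAbove R := by
    refine ⟨1 / c, ?_⟩
    rintro r ⟨u, hu, hJ, rfl⟩
    have := key u hu
    rw [hJ] at this
    rw [le_div_iff₀ hc]
    calc ‖u.1‖ * c ≤ ‖u‖ * c := mul_le_mul_of_nonneg_right (norm_fst_le u) hc.le
      _ ≤ 1 := by linarith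
  have hnorm : ∀ N, N0 ≤ N → ∃ u, V N u ∧ ‖J u.1‖ = 1 := by
    intro N hN
    obtain ⟨u, huM, hu0, hu⟩ := exists_vanishing hM N
    have hV : V N0 u := ⟨huM, fun i hi => hu i (by omega)⟩
    have hJ : 0 < ‖J u.1‖ := lt_of_lt_of_le (mul_pos hc (norm_pos_iff.mpr hu0)) (key u hV)
    refine ⟨((‖J u.1‖⁻¹ : ℝ) : ℂ) • u, ⟨M.smul_mem _ huM, fun i hi => ?_⟩, ?_⟩
    · constructor
      · simp [(hu i hi).1]
      · simp [(hu i hi).2]
    · rw [Prod.smul_fst, map_smul, norm_smul, Complex.norm_real, norm_inv, norm_norm,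
        inv_mul_cancel₀ hJ.ne']
  have hRne : R.Nonempty := by
    obtain ⟨u, hu, hJ⟩ := hnorm N0 le_rfl
    exact ⟨_, u, hu, hJ, rfl⟩
  obtain ⟨A, hA⟩ : ∃ A, A = sSup R := ⟨_, rfl⟩
  have hAle : ∀ u, V N0 u → ‖u.1‖ ≤ A * ‖J u.1‖ := by
    intro u hu
    by_cases h0 : ‖J u.1‖ = 0
    · have : ‖u‖ ≤ 0 := by
        have := key u hu
        rw [h0] at this
        by_contra hcon
        push Not at hcon
        nlinarith
      rw [h0, mul_zero]
      exact (norm_fst_le u).trans this
    · have hJ : 0 < ‖J u.1‖ := lt_of_le_of_ne (norm_nonneg _) (Ne.symm h0)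
      have hmem : ‖J u.1‖⁻¹ * ‖u.1‖ ∈ R := by
        refine ⟨((‖J u.1‖⁻¹ : ℝ) : ℂ) • u, ⟨M.smul_mem _ hu.1, fun i hi => ?_⟩, ?_, ?_⟩
        · constructor
          · simp [(hu.2 i hi).1]
          · simp [(hu.2 i hi).2]
        · rw [Prod.smul_fst, map_smul, norm_smul, Complex.norm_real, norm_inv, norm_norm,
            inv_mul_cancel₀ h0]
        · rw [Prod.smul_fst, norm_smul, Complex.norm_real, norm_inv, norm_norm]
      have := le_csSup hRbdd hmem
      rw [← hA, inv_mul_le_iff₀ hJ] at this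
      linarith
  have hA1 : 1 ≤ A := by
    obtain ⟨u, hu, hJ⟩ := hnorm N0 le_rfl
    have h1 := hAle u hu
    have h2 := J_le u.1
    rw [hJ] at h1 h2
    linarith
  obtain ⟨ε, hε⟩ : ∃ ε, ε = 1 / (2 * (A + 3)) := ⟨_, rfl⟩
  have hε0 : 0 < ε := by rw [hε]; positivity
  have hεA : (A + 3) * ε = 1 / 2 := by
    rw [hε]; field_simp
  obtain ⟨_, ⟨u, hu, hJu, rfl⟩, hu1⟩ := exists_lt_of_lt_csSup hRne (show A - ε < sSup R by
    rw [← hA]; linarith)
  -- the tail of `u.1`
  have htail : Tendsto (fun N => ∑' k, ‖u.1 (k + N)‖) atTop (𝓝 0) :=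
    tendsto_sum_nat_add fun i => ‖u.1 i‖
  obtain ⟨N1, hN1⟩ := eventually_atTop.mp (htail.eventually_lt_const hε0)
  obtain ⟨N, hNN0, hN⟩ : ∃ N, N0 ≤ N ∧ ∑' k, ‖u.1 (k + N)‖ < ε :=
    ⟨max N0 N1, le_max_left _ _, hN1 _ (le_max_right _ _)⟩
  have hsumm := summable_one u.1
  have htl : ∀ i, N ≤ i → ‖u.1 i‖ ≤ ε := by
    intro i hi
    have hs : Summable fun k => ‖u.1 (k + N)‖ := (summable_nat_add_iff N).mpr hsumm
    have := hs.le_tsum (i - N) (fun _ _ => norm_nonneg _)
    rw [Nat.sub_add_cancel hi] at this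
    linarith
  obtain ⟨w, hw, hJw⟩ := hnorm N hNN0
  have hwV : V N0 w := ⟨hw.1, fun i hi => hw.2 i (by omega)⟩
  have hsV : V N0 (u + w) := by
    refine ⟨M.add_mem hu.1 hw.1, fun i hi => ⟨?_, ?_⟩⟩
    · simp [(hu.2 i hi).1, (hwV.2 i hi).1]
    · simp [(hu.2 i hi).2, (hwV.2 i hi).2]
  have hJs : ‖J (u + w).1‖ ≤ 1 + ε := by
    refine lp.norm_le_of_forall_le (by positivity) fun i => ?_
    rw [J_apply]
    have e : (u + w).1 i = u.1 i + w.1 i := by simp
    rw [e]
    rcases Nat.lt_or_ge i N with hlt | hge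
    · rw [(hw.2 i hlt).1, add_zero]
      have := le_J u.1 i
      rw [hJu] at this
      linarith
    · have h1 := htl i hge
      have h2 := le_J w.1 i
      rw [hJw] at h2
      exact (norm_add_le _ _).trans (by linarith)
  have hlow : ‖u.1‖ + ‖w.1‖ - 2 * ε ≤ ‖(u + w).1‖ := by
    have hsw := summable_one w.1
    have hss := summable_one (u + w).1
    rw [norm_one_eq, norm_one_eq, norm_one_eq]
    have hdiff : Summable fun i => ‖u.1 i‖ + ‖w.1 i‖ - ‖(u + w).1 i‖ := (hsumm.add hsw).sub hss
    have e1 : ∑' i, (‖u.1 i‖ + ‖w.1 i‖ - ‖(u + w).1 i‖) =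
        ∑' i, ‖u.1 i‖ + ∑' i, ‖w.1 i‖ - ∑' i, ‖(u + w).1 i‖ := by
      rw [(hsumm.add hsw).tsum_sub hss, hsumm.tsum_add hsw]
    have e2 : ∑' i, (‖u.1 i‖ + ‖w.1 i‖ - ‖(u + w).1 i‖) ≤ 2 * ε := by
      rw [← hdiff.sum_add_tsum_nat_add N]
      have z : ∑ i ∈ Finset.range N, (‖u.1 i‖ + ‖w.1 i‖ - ‖(u + w).1 i‖) = 0 := by
        apply Finset.sum_eq_zero
        intro i hi
        have := (hw.2 i (Finset.mem_range.mp hi)).1
        simp [this]
      rw [z, zero_add]
      have hs : Summable fun k => ‖u.1 (k + N)‖ := (summable_nat_add_iff N).mpr hsumm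
      have hb : ∑' k, (‖u.1 (k + N)‖ + ‖w.1 (k + N)‖ - ‖(u + w).1 (k + N)‖) ≤
          ∑' k, 2 * ‖u.1 (k + N)‖ := by
        refine ((summable_nat_add_iff N).mpr hdiff).tsum_le_tsum ?_ (hs.mul_left 2)
        intro k
        have e : (u + w).1 (k + N) = u.1 (k + N) + w.1 (k + N) := by simp
        rw [e]
        have := norm_sub_le (u.1 (k + N) + w.1 (k + N)) (u.1 (k + N))
        rw [add_sub_cancel_left] at this
        linarith
      rw [tsum_mul_left] at hb
      linarith
    linarith
  have hfin := hAle _ hsV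
  have hw1 : 1 ≤ ‖w.1‖ := by
    have := J_le w.1
    rw [hJw] at this; exact this
  have hmul : A * ‖J (u + w).1‖ ≤ A * (1 + ε) := mul_le_mul_of_nonneg_left hJs (by linarith)
  nlinarith

/-! ### The space `E`: the closure of the polynomials -/

/-- The span of the monomials. -/
noncomputable def F : Submodule ℂ B := Submodule.span ℂ (Set.range b)

/-- The closure of the span of the monomials. -/
noncomputable def Esub : Submodule ℂ B := F.topologicalClosure

theorem F_le : F ≤ Esub := F.le_topologicalClosure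

theorem T_maps_F : ∀ u ∈ F, T u ∈ F := by
  intro u hu
  have : F ≤ F.comap (T : B →ₗ[ℂ] B) := by
    unfold F
    rw [Submodule.span_le]
    rintro _ ⟨n, rfl⟩
    change T (b n) ∈ Submodule.span ℂ (Set.range b)
    rw [T_b]
    exact Submodule.subset_span ⟨_, rfl⟩
  exact this hu

theorem T_maps : ∀ u ∈ Esub, T u ∈ Esub := by
  intro u hu
  have hu' : u ∈ closure (F : Set B) := hu
  exact map_mem_closure T.continuous hu' fun w hw => T_maps_F w hw

noncomputable instance : CompleteSpace Esub :=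
  F.isClosed_topologicalClosure.completeSpace_coe

/-- The Banach space of analytic functions of the example. -/
noncomputable def X : AnalyticBanachSpace where
  E := Esub
  toFun := realize.comp Esub.subtype
  toFun_injective := realize_injective.comp Subtype.val_injective
  analytic := fun f => realize_analytic f.1
  continuous_eval := fun z => (realize_continuous z).comp continuous_subtype_val

/-- The composition operator of the example. -/
noncomputable def TE : Esub →L[ℂ] Esub :=
  (T.comp Esub.subtypeL).codRestrict Esub fun u => T_maps u.1 u.2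

theorem TE_coe (u : Esub) : (TE u : B) = T u := rfl

theorem TE_strictlySingular : IsStrictlySingular TE := by
  rintro ⟨M, _, hM, c, hc, h⟩
  refine not_bounded_below (M := M.map Esub.subtype) ?_ hc ?_
  · intro hfin
    apply hM
    exact (Submodule.equivMapOfInjective Esub.subtype Subtype.val_injective M).symm.finiteDimensional
  · rintro _ ⟨u, hu, rfl⟩
    exact h u hu

theorem b_mem (n : ℕ) : b n ∈ Esub := F_le (Submodule.subset_span ⟨n, rfl⟩)

theorem TE_not_compact : ¬ IsCompactOperator TE := by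
  intro hcomp
  obtain ⟨K, hK, hsub⟩ := hcomp.image_closedBall_subset_compact (𝕜₁ := ℂ) (f := TE.toLinearMap) 1
  let e : ℕ → Esub := fun n => ⟨b (2 * n + 1), b_mem _⟩
  have hnorm : ∀ n, ‖e n‖ ≤ 1 := by
    intro n
    change ‖b (2 * n + 1)‖ ≤ 1
    unfold b
    rw [if_neg (by simp)]
    refine max_le ?_ ?_
    · change ‖lp.single (E := fun _ : ℕ => ℂ) 1 ((2 * n + 1) / 2) (1 : ℂ)‖ ≤ 1
      rw [lp.norm_single (by norm_num)]; simp
    · simp
  have hmem : ∀ n, TE (e n) ∈ K := fun n => hsub ⟨e n, by simpa using hnorm n, rfl⟩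
  obtain ⟨a, _, φ, hφ, hlim⟩ := hK.tendsto_subseq hmem
  have hcau := hlim.cauchySeq
  rw [Metric.cauchySeq_iff] at hcau
  obtain ⟨N, hN⟩ := hcau 1 one_pos
  have hd := hN N le_rfl (N + 1) (by omega)
  have hne : φ N ≠ φ (N + 1) := (hφ (by omega : N < N + 1)).ne
  have hlow : 1 ≤ dist (TE (e (φ N))) (TE (e (φ (N + 1)))) := by
    rw [dist_eq_norm]
    change 1 ≤ ‖T (b (2 * φ N + 1)) - T (b (2 * φ (N + 1) + 1))‖
    have h1 := norm_snd_apply_le (T (b (2 * φ N + 1)) - T (b (2 * φ (N + 1) + 1))) (2 * φ N + 1)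
    refine le_trans ?_ h1
    have e1 : (T (b (2 * φ N + 1)) - T (b (2 * φ (N + 1) + 1))).2 (2 * φ N + 1) =
        tc (b (2 * φ N + 1)) (2 * φ N + 1) - tc (b (2 * φ (N + 1) + 1)) (2 * φ N + 1) := rfl
    rw [e1]
    unfold tc b
    rw [if_neg (by simp), if_neg (by simp), if_neg (by simp), if_neg (by simp)]
    have e2 : (2 * φ N + 1) / 2 = φ N := by omega
    have e3 : (2 * φ (N + 1) + 1) / 2 = φ (N + 1) := by omega
    rw [e2, e3]
    simp [Pi.single_eq_of_ne hne]
  exact absurd hd (not_lt.mpr hlow)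

theorem realize_poly (p : Polynomial ℂ) :
    ∃ u ∈ F, ∀ z : 𝔻, realize u z = p.eval (z : ℂ) := by
  refine ⟨∑ n ∈ p.support, p.coeff n • b n,
    Submodule.sum_mem _ fun n _ => Submodule.smul_mem _ _ (Submodule.subset_span ⟨n, rfl⟩), ?_⟩
  intro z
  rw [map_sum, Finset.sum_apply, Polynomial.eval_eq_sum, Polynomial.sum_def]
  apply Finset.sum_congr rfl
  intro n _
  rw [map_smul, Pi.smul_apply, realize_b, smul_eq_mul]

theorem poly_of_mem_F (u : B) (hu : u ∈ F) : ∃ p : Polynomial ℂ, ∀ z : 𝔻,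
    realize u z = p.eval (z : ℂ) := by
  unfold F at hu
  induction hu using Submodule.span_induction with
  | mem x hx =>
    obtain ⟨n, rfl⟩ := hx
    exact ⟨Polynomial.X ^ n, fun z => by rw [realize_b]; simp⟩
  | zero => exact ⟨0, fun z => by simp⟩
  | add x y _ _ hx hy =>
    obtain ⟨p, hp⟩ := hx
    obtain ⟨q, hq⟩ := hy
    exact ⟨p + q, fun z => by rw [map_add, Pi.add_apply, hp, hq, Polynomial.eval_add]⟩
  | smul c x _ hx =>
    obtain ⟨p, hp⟩ := hx
    exact ⟨Polynomial.C c * p, fun z => by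
      rw [map_smul, Pi.smul_apply, hp]; simp⟩

theorem sq_analytic : IsAnalytic fun z : 𝔻 => (sq z : ℂ) :=
  ⟨fun z => z * z, fun _ _ => analyticAt_id.mul analyticAt_id, fun z => by simp [sq]⟩

/-- There is a Banach space `X` of analytic functions on the disc, in which the polynomials form
a dense subspace, and an analytic self-map `φ` of the disc (one can take `φ z = z ^ 2`) such that
`f ↦ f ∘ φ` is a bounded operator `C` on `X` which is strictly singular but not compact. -/
theorem result :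
    ∃ (X : AnalyticBanachSpace) (φ : 𝔻 → 𝔻) (C : X.E →L[ℂ] X.E),
      (∀ p : Polynomial ℂ, ∃ f : X.E, ∀ z : 𝔻, X.toFun f z = p.eval (z : ℂ)) ∧
      Dense {f : X.E | ∃ p : Polynomial ℂ, ∀ z : 𝔻, X.toFun f z = p.eval (z : ℂ)} ∧
      (∀ z : 𝔻, (φ z : ℂ) = (z : ℂ) ^ 2) ∧
      IsAnalytic (fun z => (φ z : ℂ)) ∧
      (∀ f : X.E, X.toFun (C f) = X.toFun f ∘ φ) ∧
      IsStrictlySingular C ∧ ¬ IsCompactOperator C := by
  refine ⟨X, sq, TE, ?_, ?_, ?_, sq_analytic, ?_, TE_strictlySingular, TE_not_compact⟩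
  · intro p
    obtain ⟨u, hu, hp⟩ := realize_poly p
    exact ⟨⟨u, F_le hu⟩, hp⟩
  · intro f
    have hf : ((show Esub from f) : B) ∈ closure (F : Set B) := (show Esub from f).2
    rw [Metric.mem_closure_iff]
    intro ε hε
    obtain ⟨w, hw, hd⟩ := Metric.mem_closure_iff.mp hf ε hε
    refine ⟨⟨w, F_le hw⟩, ?_, hd⟩
    exact poly_of_mem_F w hw
  · intro z; simp [sq, pow_two]
  · intro f
    funext z
    exact realize_T f.1 z

end Pool.Agent.Results.MP_628ecd_an.StrictlySingular
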